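import Pool.Agent.L5helper15.SP.Sparse

/-!
# The Fermat-Catalan equation with two bases outside a small set of residue classes

For all `K` and `ε > 0` there are a modulus `M`, a set `S` of at most `ε M ^ 2` pairs of residue classes
modulo `M` and `c > 0` such that for all large `N` at most `N ^ ε` coprime pairs `x, y ≤ N ^ K` whose
residues are not in `S` are two of the three bases of a solution of

`x ^ p + y ^ q = z ^ r`, `x ^ p + z ^ r = y ^ q` or `y ^ q + z ^ r = x ^ p`

with a third base `z ≤ exp (N ^ c)`. All three exponents `p, q, r ≥ 2` are free.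

So a fixed finite sieve (which does not depend on `N`) leaves a set of pairs of density at least
`1 - ε` in which all but `N ^ ε` pairs have no solution. For instance, if `A` is any set of at least
`N ^ (2 ε)` pairs up to `N ^ K` with at most `C |A| / M ^ 2` elements in each residue class modulo `M`,
then at most `2 C ε |A|` of them are bases of solutions; and for EVERY set `A` of at least `N ^ (2 ε)`
pairs this is true, with `C = 1`, on the average over the shifts `A + (h, k)`, `1 ≤ h, k ≤ M`.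

Proof. Large `r`: the theorem on lopsided pairs of helper741 (with helpers 141, 157, 525, 767;
`MP_509488_nt.LopsidedPairs`, starting library), a determinant method. Given `r ≥ 3`: the residue sieve for
pairs of bases (`Pool.Agent.H374R2`, Beal's equation with one given exponent) in the form given to it by
helper666 (`Pool.Agent.N666.VE.CN`). For `r = 2` and `p`, `q` not both even, the same. New here is the
case `r = 2`, `p = 2 a`, `q = 2 b` (excluded in `GeneralisedPolynomialBases`): if a prime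
`ℓ ≡ 1 (mod 8)` divides `x` and `y` is not a square modulo `ℓ`, then `b` is even, as one of the factors
of `z ^ 2 - x ^ (2 a)`, `y ^ (2 b) - x ^ (2 a)` is a square or twice a square. By symmetry `a` is even, and
`u ^ 4 ± v ^ 4 = z ^ 2` has no solutions.
-/

set_option autoImplicit false

namespace Pool.Agent.Results.MP_2738db_nt.FewResidueClasses

/-- `x` and `y` are coprime and two of the three bases of a solution with exponents at least two
and third base at most `W`. -/
def TwoBases (W : ℝ) (x y : ℕ) : Prop := ∃ z p q r : ℕ, 1 ≤ x ∧ 1 ≤ y ∧ Nat.Coprime x y ∧ 1 ≤ z ∧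
  (z : ℝ) ≤ W ∧ 2 ≤ p ∧ 2 ≤ q ∧ 2 ≤ r ∧
  (x ^ p + y ^ q = z ^ r ∨ x ^ p + z ^ r = y ^ q ∨ y ^ q + z ^ r = x ^ p)

/-- Outside `ε M ^ 2` pairs of residue classes modulo a fixed `M` there are at most `N ^ ε` pairs
`x, y ≤ N ^ K` of bases with a third base at most `exp (N ^ c)`. -/
theorem result (K : ℕ) (ε : ℝ) (hε : 0 < ε) : ∃ (M : ℕ) (S : Finset (ℕ × ℕ)) (c : ℝ) (N₀ : ℕ),
    0 < M ∧ (S.card : ℝ) ≤ ε * (M : ℝ) ^ 2 ∧ 0 < c ∧ ∀ N : ℕ, N₀ ≤ N →
      ({v : ℕ × ℕ | v.1 ≤ N ^ K ∧ v.2 ≤ N ^ K ∧ (v.1 % M, v.2 % M) ∉ S ∧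
        TwoBases (Real.exp ((N : ℝ) ^ c)) v.1 v.2}.ncard : ℝ) ≤ (N : ℝ) ^ ε := by
  obtain ⟨R, c, hc, N₁, h1⟩ := Pool.Agent.L5helper15.SP.cover K ε hε
  obtain ⟨M, hM, S, -, hS2, hS3⟩ := Pool.Agent.L5helper15.SP.cn_Sm R ε hε
  refine ⟨M, S, c, N₁, hM, hS2, hc, fun N hN => ?_⟩
  obtain ⟨T, hT, hcov⟩ := h1 N hN
  refine le_trans ?_ hT
  rw [← Set.ncard_coe_finset]
  have hsub : {v : ℕ × ℕ | v.1 ≤ N ^ K ∧ v.2 ≤ N ^ K ∧ (v.1 % M, v.2 % M) ∉ S ∧
      TwoBases (Real.exp ((N : ℝ) ^ c)) v.1 v.2} ⊆ (T : Set (ℕ × ℕ)) := by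
    rintro v ⟨h2, h3, h4, h5⟩
    rcases hcov v.1 v.2 h2 h3 h5 with h6 | h6
    · exact absurd (hS3 _ h6) h4
    · exact h6
  exact_mod_cast Set.ncard_le_ncard hsub T.finite_toSet

end Pool.Agent.Results.MP_2738db_nt.FewResidueClasses
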