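import Pool.Agent.L5helper15.MP.Metric

/-!
# The Fermat-Catalan equation and powers of almost every real number

There is an absolute constant `κ > 0` such that for (Lebesgue-)almost every real number `α > 1` and for
every `U` the Fermat-Catalan equation `x ^ p + y ^ q = z ^ r`, `gcd(x, y) = 1`, `1/p + 1/q + 1/r ≤ 1`,
all three exponents free, has only finitely many solutions (as triples of values `x ^ p`, `y ^ q`,
`z ^ r`) such that

* two of the three bases are within `U` of powers of `α` (for instance `⌊α ^ n⌋` and `⌊α ^ m⌋ + 1`;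
  `n` and `m` are independent of each other) and the remaining base, about which nothing else is
  assumed, is at most `exp (M ^ κ)`, where `M` is the larger one of the two, or
* all three bases are within `U` of powers of `α`.

Proof. Fix `a > 0` and let `α` run through `I = [exp a, exp ((1 + η) a)]`. For `n ≤ m` the pairs of
integers `(x, y)` with `x` near `α ^ n` and `y` near `α ^ m`, `α` in `I`, lie in the union of about
`exp (a n)` segments of length about `exp (a (m - n))` if `n` and `m` differ much, and near the curve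
`y = x ^ (m/n)`, which is almost a line on short intervals, if `m ≤ (1 + k/4) n`. In both cases the
uniform theorem on pairs of polynomials of the starting results (MP_509488_nt.PolynomialPairs), resp.
the one on smooth curves (NearSmoothCurves), bounds the number of pairs which are two bases of a
solution by `exp ((1 - ρ) a m)`. Such a pair concerns a set of `α` of measure `O (exp (- a m))`, so the
exceptional sets of level `m` have a convergent sum of measures (Borel-Cantelli).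
-/

set_option autoImplicit false

namespace Pool.Agent.Results.MP_2738db_nt.NearPowersOfAlmostAllReals

open Pool.Agent.N741.PB (Pair ISol)
open Pool.Agent.L5helper15.NL (pair_mono)
open Pool.Agent.L5helper15.MP (pair_symm)

/-- `x ^ p + y ^ q = z ^ r` with positive integers, `x` and `y` coprime, `1/p + 1/q + 1/r ≤ 1`. -/
def Sol (x y z p q r : ℕ) : Prop := 0 < x ∧ 0 < y ∧ 0 < z ∧ Nat.Coprime x y ∧
  0 < p ∧ 0 < q ∧ 0 < r ∧ (1 : ℚ) / p + 1 / q + 1 / r ≤ 1 ∧ x ^ p + y ^ q = z ^ r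

/-- `x` is within `U` of a power `α ^ n`. -/
def Near (α : ℝ) (U : ℕ) (x : ℕ) : Prop := ∃ n : ℕ, |(x : ℝ) - α ^ n| ≤ U

theorem ineq_of {l m k : ℕ} (hl : 0 < l) (hm : 0 < m) (hk : 0 < k)
    (h : (1 : ℚ) / l + 1 / m + 1 / k ≤ 1) : m * k + k * l + l * m ≤ l * m * k := by
  have hl' : (0 : ℚ) < l := by exact_mod_cast hl
  have hm' : (0 : ℚ) < m := by exact_mod_cast hm
  have hk' : (0 : ℚ) < k := by exact_mod_cast hk
  have h1 : ((m * k + k * l + l * m : ℕ) : ℚ) ≤ ((l * m * k : ℕ) : ℚ) := by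
    push_cast
    have h2 := mul_le_mul_of_nonneg_right h (by positivity : (0 : ℚ) ≤ l * m * k)
    have h3 : ((1 : ℚ) / l + 1 / m + 1 / k) * (l * m * k) = m * k + k * l + l * m := by
      field_simp
    linarith
  exact_mod_cast h1

theorem Sol.cop {x y z p q r : ℕ} (h : Sol x y z p q r) : Nat.Coprime x z ∧ Nat.Coprime y z := by
  obtain ⟨hx, hy, hz, hc, hp, hq, hr, -, he⟩ := h
  constructor
  · rw [← Nat.coprime_pow_right_iff hr, ← he]
    have h1 : x ∣ x ^ p := dvd_pow_self x hp.ne'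
    obtain ⟨k, hk⟩ := h1
    rw [hk, add_comm, Nat.coprime_add_mul_left_right]
    exact Nat.Coprime.pow_right q hc
  · rw [← Nat.coprime_pow_right_iff hr, ← he]
    have h1 : y ∣ y ^ q := dvd_pow_self y hq.ne'
    obtain ⟨k, hk⟩ := h1
    rw [hk, Nat.coprime_add_mul_left_right]
    exact Nat.Coprime.pow_right p hc.symm

theorem Sol.isol {x y z p q r : ℕ} (h : Sol x y z p q r) : ISol x y z p q r 1 1 ∧
    ISol x z y p r q (-1) (-1) ∧ ISol y z x q r p (-1) (-1) := by
  obtain ⟨c1, c2⟩ := h.cop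
  obtain ⟨hx, hy, hz, hc, hp, hq, hr, hle, he⟩ := h
  have hle' := ineq_of hp hq hr hle
  have he' : (x : ℤ) ^ p + (y : ℤ) ^ q = (z : ℤ) ^ r := by exact_mod_cast he
  refine ⟨⟨by exact_mod_cast hx.ne', by exact_mod_cast hy.ne', by exact_mod_cast hz.ne',
    Nat.isCoprime_iff_coprime.mpr hc, hp, hq, hr, hle', Or.inl rfl, Or.inl rfl, ?_⟩,
    ⟨by exact_mod_cast hx.ne', by exact_mod_cast hz.ne', by exact_mod_cast hy.ne',
    Nat.isCoprime_iff_coprime.mpr c1, hp, hr, hq, ?_, Or.inr rfl, Or.inr rfl, ?_⟩,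
    ⟨by exact_mod_cast hy.ne', by exact_mod_cast hz.ne', by exact_mod_cast hx.ne',
    Nat.isCoprime_iff_coprime.mpr c2, hq, hr, hp, ?_, Or.inr rfl, Or.inr rfl, ?_⟩⟩
  · linear_combination he'
  · calc r * q + q * p + p * r = q * r + r * p + p * q := by ring
      _ ≤ p * q * r := hle'
      _ = p * r * q := by ring
  · linear_combination he'
  · calc r * p + p * q + q * r = q * r + r * p + p * q := by ring
      _ ≤ p * q * r := hle'
      _ = q * r * p := by ring
  · linear_combination he'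

theorem pair_of {a b c : ℕ} {l m k : ℕ} {s t : ℤ} (h : ISol a b c l m k s t) {W : ℝ} (hW : (c : ℝ) ≤ W) :
    Pair 2 W (a : ℤ) (b : ℤ) := by
  refine ⟨c, l, m, k, s, t, h, fun p hp _ => hp.two_le, ?_⟩
  rw [Int.cast_natCast, abs_of_nonneg (Nat.cast_nonneg _)]
  exact hW

/-- finitely many values of solutions with bounded bases -/
theorem bounded (B : ℕ) : {v : ℕ × ℕ × ℕ | ∃ x y z p q r : ℕ, Sol x y z p q r ∧
    v = (x ^ p, y ^ q, z ^ r) ∧ x ≤ B ∧ y ≤ B ∧ z ≤ B}.Finite := by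
  obtain ⟨C, κ, hC⟩ := Pool.Agent.N741.PB.exps_int
  set T : ℕ := (B + 1) ^ (C * (B + 2) ^ κ) with hT
  have hB : B ≤ 2 ^ (B + 2) := (Nat.lt_two_pow_self (n := B)).le.trans
    (Nat.pow_le_pow_right (by norm_num) (by omega))
  have key : ∀ x p : ℕ, 0 < x → x ≤ B → (2 ≤ x → p ≤ C * (B + 2) ^ κ) → x ^ p ≤ T := by
    intro x p hx hxB hp
    rcases Nat.lt_or_ge x 2 with h | h
    · have : x = 1 := by omega
      rw [this, one_pow]
      exact Nat.one_le_pow _ _ (by omega)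
    · calc x ^ p ≤ (B + 1) ^ p := Nat.pow_le_pow_left (by omega) p
        _ ≤ _ := Nat.pow_le_pow_right (by omega) (hp h)
  refine ((Set.finite_Iic T).prod ((Set.finite_Iic T).prod (Set.finite_Iic T))).subset ?_
  rintro v ⟨x, y, z, p, q, r, h, rfl, hx, hy, hz⟩
  obtain ⟨e1, e2, e3⟩ := hC (B + 2) (by omega) x y z p q r 1 1 h.isol.1 (by simpa using hx.trans hB)
    (by simpa using hy.trans hB) (by simpa using hz.trans hB)
  rw [Set.mem_prod, Set.mem_prod]
  refine ⟨key x p h.1 hx ?_, key y q h.2.1 hy ?_, key z r h.2.2.1 hz ?_⟩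
  · simpa using e1
  · simpa using e2
  · simpa using e3

/-- For almost every `α > 1`: only finitely many solutions have two bases within `U` of powers of `α`
and third base at most `exp (M ^ κ)`, `M` the larger of the two, or three bases within `U` of powers
of `α`. -/
theorem result : ∃ κ : ℝ, 0 < κ ∧ ∀ᵐ α : ℝ, 1 < α → ∀ U : ℕ,
    {v : ℕ × ℕ × ℕ | ∃ x y z p q r : ℕ, Sol x y z p q r ∧ v = (x ^ p, y ^ q, z ^ r) ∧
      ((Near α U x ∧ Near α U y ∧ (z : ℝ) ≤ Real.exp ((max x y : ℝ) ^ κ)) ∨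
       (Near α U x ∧ Near α U z ∧ (y : ℝ) ≤ Real.exp ((max x z : ℝ) ^ κ)) ∨
       (Near α U y ∧ Near α U z ∧ (x : ℝ) ≤ Real.exp ((max y z : ℝ) ^ κ)) ∨
       (Near α U x ∧ Near α U y ∧ Near α U z))}.Finite := by
  obtain ⟨κ, hκ, hae⟩ := Pool.Agent.L5helper15.MP.metric
  refine ⟨κ, hκ, ?_⟩
  filter_upwards [hae] with α hα h1 U
  obtain ⟨m₁, hm₁⟩ := hα h1 U
  have hα0 : 0 < α := by linarith
  -- a level from which on everything is large
  have hlim : Filter.Tendsto (fun m : ℕ => 2 * α ^ m) Filter.atTop Filter.atTop :=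
    (tendsto_pow_atTop_atTop_of_one_lt h1).const_mul_atTop (by norm_num)
  have hexp : ∀ᶠ X : ℝ in Filter.atTop, X ≤ Real.exp (X ^ κ) := by
    have h2 := (isLittleO_log_rpow_atTop hκ).bound (show (0 : ℝ) < 1 by norm_num)
    filter_upwards [h2, Filter.eventually_ge_atTop (1 : ℝ)] with X h3 h4
    rw [one_mul, Real.norm_of_nonneg (Real.log_nonneg h4), Real.norm_of_nonneg (by positivity)] at h3
    rwa [← Real.log_le_iff_le_exp (by linarith)]
  have hbig : ∀ᶠ m : ℕ in Filter.atTop, (U : ℝ) ≤ α ^ m ∧ 2 * α ^ m ≤ Real.exp ((2 * α ^ m) ^ κ) :=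
    ((tendsto_pow_atTop_atTop_of_one_lt h1).eventually_ge_atTop _).and (hlim.eventually hexp)
  obtain ⟨m₂', hm₂'⟩ := Filter.eventually_atTop.mp hbig
  obtain ⟨m₂, hm₂⟩ : ∃ m₂ : ℕ, m₂ = max m₁ m₂' := ⟨_, rfl⟩
  have hU : ∀ m : ℕ, m₂ ≤ m → (U : ℝ) ≤ α ^ m ∧ 2 * α ^ m ≤ Real.exp ((2 * α ^ m) ^ κ) := by
    intro m hm
    exact hm₂' m (by omega)
  have hpm : ∀ {i j : ℕ}, i ≤ j → α ^ i ≤ α ^ j := fun h => pow_le_pow_right₀ h1.le h
  have hup : ∀ {x i m : ℕ}, |(x : ℝ) - α ^ i| ≤ U → i ≤ m → (x : ℝ) ≤ α ^ m + U := by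
    intro x i m h2 h3
    have h4 := (abs_le.mp h2).2
    have h5 := hpm h3
    linarith
  -- no pair of high level
  have hno : ∀ x y i j m : ℕ, |(x : ℝ) - α ^ i| ≤ U → |(y : ℝ) - α ^ j| ≤ U → i ≤ m → j ≤ m →
      (i = m ∨ j = m) → m₂ ≤ m → ¬ Pair 2 (Real.exp ((2 * α ^ m) ^ κ)) (x : ℤ) (y : ℤ) := by
    intro x y i j m h2 h3 h4 h5 h6 h7 hP
    rcases h6 with h6 | h6
    · rw [h6] at h2
      exact hm₁ m j (by omega) h5 y x (by exact_mod_cast h3) (by exact_mod_cast h2) (pair_symm hP)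
    · rw [h6] at h3
      exact hm₁ m i (by omega) h4 x y (by exact_mod_cast h2) (by exact_mod_cast h3) hP
  set X : ℝ := α ^ m₂ + U with hX
  have hX0 : 0 ≤ X := by positivity
  -- two near
  have two : ∀ (x y z p q r : ℕ) (s t : ℤ), ISol x y z p q r s t → Near α U x → Near α U y →
      (z : ℝ) ≤ Real.exp ((max x y : ℝ) ^ κ) → (x : ℝ) ≤ X ∧ (y : ℝ) ≤ X ∧ (z : ℝ) ≤ Real.exp (X ^ κ) := by
    rintro x y z p q r s t hs ⟨i, hi⟩ ⟨j, hj⟩ hz
    have hlt : max i j < m₂ := by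
      by_contra hcon
      push Not at hcon
      refine hno x y i j (max i j) hi hj (le_max_left _ _) (le_max_right _ _) ?_ hcon
        (pair_of hs (hz.trans ?_))
      · rcases le_total i j with h | h
        · right; exact (max_eq_right h).symm
        · left; exact (max_eq_left h).symm
      · apply Real.exp_le_exp.mpr
        apply Real.rpow_le_rpow (by positivity) _ hκ.le
        have h2 := hup hi (le_max_left i j)
        have h3 := hup hj (le_max_right i j)
        have h4 := (hU _ hcon).1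
        apply max_le <;> linarith
    have hx : (x : ℝ) ≤ X := hup hi (by omega)
    have hy : (y : ℝ) ≤ X := hup hj (by omega)
    refine ⟨hx, hy, hz.trans ?_⟩
    apply Real.exp_le_exp.mpr
    exact Real.rpow_le_rpow (by positivity) (max_le hx hy) hκ.le
  -- three near
  have three : ∀ (x y z p q r : ℕ), Sol x y z p q r → Near α U x → Near α U y → Near α U z →
      (x : ℝ) ≤ X ∧ (y : ℝ) ≤ X ∧ (z : ℝ) ≤ X := by
    rintro x y z p q r hs ⟨i, hi⟩ ⟨j, hj⟩ ⟨k, hk⟩
    obtain ⟨s1, s2, s3⟩ := hs.isol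
    obtain ⟨m, hm⟩ : ∃ m : ℕ, m = max i (max j k) := ⟨_, rfl⟩
    have him : i ≤ m := by omega
    have hjm : j ≤ m := by omega
    have hkm : k ≤ m := by omega
    have hlt : m < m₂ := by
      by_contra hcon
      push Not at hcon
      obtain ⟨u1, u2⟩ := hU m hcon
      have hW : ∀ {w l : ℕ}, |(w : ℝ) - α ^ l| ≤ U → l ≤ m → (w : ℝ) ≤ Real.exp ((2 * α ^ m) ^ κ) := by
        intro w l h2 h3
        have h4 := hup h2 h3
        linarith
      have hcases : i = m ∨ j = m ∨ k = m := by omega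
      rcases hcases with h | h | h
      · exact hno x y i j m hi hj him hjm (Or.inl h) hcon (pair_of s1 (hW hk hkm))
      · exact hno x y i j m hi hj him hjm (Or.inr h) hcon (pair_of s1 (hW hk hkm))
      · exact hno x z i k m hi hk him hkm (Or.inr h) hcon (pair_of s2 (hW hj hjm))
    exact ⟨hup hi (by omega), hup hj (by omega), hup hk (by omega)⟩
  obtain ⟨B, hB⟩ : ∃ B : ℕ, B = ⌈X⌉₊ + ⌈Real.exp (X ^ κ)⌉₊ := ⟨_, rfl⟩
  have hB1 : ∀ w : ℕ, (w : ℝ) ≤ X → w ≤ B := by
    intro w hw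
    have h2 : (w : ℝ) ≤ (⌈X⌉₊ : ℕ) := hw.trans (Nat.le_ceil X)
    have h3 : w ≤ ⌈X⌉₊ := by exact_mod_cast h2
    omega
  have hB2 : ∀ w : ℕ, (w : ℝ) ≤ Real.exp (X ^ κ) → w ≤ B := by
    intro w hw
    have h2 : (w : ℝ) ≤ (⌈Real.exp (X ^ κ)⌉₊ : ℕ) := hw.trans (Nat.le_ceil _)
    have h3 : w ≤ ⌈Real.exp (X ^ κ)⌉₊ := by exact_mod_cast h2
    omega
  refine (bounded B).subset ?_
  rintro v ⟨x, y, z, p, q, r, hs, hv, hcase⟩
  obtain ⟨s1, s2, s3⟩ := hs.isol
  refine ⟨x, y, z, p, q, r, hs, hv, ?_⟩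
  rcases hcase with ⟨h2, h3, h4⟩ | ⟨h2, h3, h4⟩ | ⟨h2, h3, h4⟩ | ⟨h2, h3, h4⟩
  · obtain ⟨a1, a2, a3⟩ := two x y z p q r 1 1 s1 h2 h3 h4
    exact ⟨hB1 x a1, hB1 y a2, hB2 z a3⟩
  · obtain ⟨a1, a2, a3⟩ := two x z y p r q (-1) (-1) s2 h2 h3 h4
    exact ⟨hB1 x a1, hB2 y a3, hB1 z a2⟩
  · obtain ⟨a1, a2, a3⟩ := two y z x q r p (-1) (-1) s3 h2 h3 h4
    exact ⟨hB2 x a3, hB1 y a1, hB1 z a2⟩
  · obtain ⟨a1, a2, a3⟩ := three x y z p q r hs h2 h3 h4
    exact ⟨hB1 x a1, hB1 y a2, hB1 z a3⟩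

end Pool.Agent.Results.MP_2738db_nt.NearPowersOfAlmostAllReals
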