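import Pool.Agent.L5helper15.NL.Main

/-!
# The Fermat-Catalan equation with two bases near a smooth curve: a power saving

Let `δ > 0`. There is `κ > 0` such that for all large `N` and for every real function `g` with second
differences at most `N ^ (-δ)` and `|g| ≤ exp (N ^ κ)` on `[N, 2 N]` the following holds. At most
`N ^ (1 - κ)` integral points `(x, y)` with `N ≤ x < 2 N` and `|y - g(x)| ≤ N ^ κ` (there are about
`2 N ^ (1 + κ)` such points) are two of the three bases of a primitive solution of the Fermat-Catalan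
equation, all three exponents free (`1/l + 1/m + 1/k ≤ 1`, any signs), with a third base at most
`exp (N ^ κ)`.

Examples: `g(x) = α x + β` with any real `α`, `β` (also if they depend on `N`), for instance the pairs
`(n, ⌊√2 n⌋)`, `(n, ⌊n / 3⌋)`; `g(x) = α x ^ c` with `c < 2`, for instance `(n, ⌊n ^ (3/2)⌋)`;
`g(x) = x log x`; and the wide neighbourhoods `|y - g(x)| ≤ N ^ κ` of these curves. For each of these
sequences of pairs only `N ^ (1 - κ)` of the `n ≤ N` give two bases of a solution.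
(`GeneralisedPolynomialBases` needs distinct leading exponents that are not integers, gives no power
saving and does not admit the exponents with `p`, `q` even and `r = 2`; `PolynomialPairs` of
MP_509488_nt is about pairs of polynomials with integral coefficients, which is used here.)

Proof. The interval `[N, 2 N]` is divided into blocks of length `L = B ^ 2 ≤ N ^ (δ/2)`, on which `g` is
linear up to a bounded error. The slope `u` has a rational approximation `|b u - a| ≤ 1 / (B + 1)`,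
`b ≤ B`. So the points of the block are, up to a translation of `y` by at most `N ^ κ + 3`, on
`O(L / B)` lines `x = X₀ + b t`, `y = Y₀ + a t`, `0 ≤ t < B`. The theorem on polynomial pairs
(helper741, determinant method), which is uniform in the polynomials, bounds the number of
exceptional `t` on each of these lines by `B ^ (3/4)`.
-/

set_option autoImplicit false

namespace Pool.Agent.Results.MP_2738db_nt.NearSmoothCurves

open Pool.Agent.N741.PB (Pair ISol)

/-- `a` and `b` are two of the three bases of a primitive solution with exponents `l`, `m`, `k`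
(`1/l + 1/m + 1/k ≤ 1`) and signs `s`, `t`; the third base `c` is nonzero of absolute value at most
`W`. -/
def TwoBases (W : ℝ) (a b : ℤ) : Prop := ∃ (c : ℤ) (l m k : ℕ) (s t : ℤ),
  a ≠ 0 ∧ b ≠ 0 ∧ c ≠ 0 ∧ IsCoprime a b ∧ 0 < l ∧ 0 < m ∧ 0 < k ∧
    (1 : ℚ) / l + 1 / m + 1 / k ≤ 1 ∧ (s = 1 ∨ s = -1) ∧ (t = 1 ∨ t = -1) ∧
    a ^ l + s * b ^ m = t * c ^ k ∧ |(c : ℝ)| ≤ W

theorem ineq_of {l m k : ℕ} (hl : 0 < l) (hm : 0 < m) (hk : 0 < k)
    (h : (1 : ℚ) / l + 1 / m + 1 / k ≤ 1) : m * k + k * l + l * m ≤ l * m * k := by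
  have hl' : (0 : ℚ) < l := by exact_mod_cast hl
  have hm' : (0 : ℚ) < m := by exact_mod_cast hm
  have hk' : (0 : ℚ) < k := by exact_mod_cast hk
  have h1 : ((m * k + k * l + l * m : ℕ) : ℚ) ≤ ((l * m * k : ℕ) : ℚ) := by
    push_cast
    have h2 := mul_le_mul_of_nonneg_right h (by positivity : (0 : ℚ) ≤ l * m * k)
    have h3 : ((1 : ℚ) / l + 1 / m + 1 / k) * (l * m * k) = m * k + k * l + l * m := by
      field_simp
    linarith
  exact_mod_cast h1

theorem TwoBases.pair {W : ℝ} {a b : ℤ} (h : TwoBases W a b) : Pair 2 W a b := by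
  obtain ⟨c, l, m, k, s, t, ha, hb, hc, hab, hl, hm, hk, hle, hs, ht, heq, hW⟩ := h
  exact ⟨c, l, m, k, s, t, ⟨ha, hb, hc, hab, hl, hm, hk, ineq_of hl hm hk hle, hs, ht, heq⟩,
    fun p hp _ => hp.two_le, hW⟩

/-- At most `N ^ (1 - κ)` points in the neighbourhood of width `N ^ κ` of a curve `y = g(x)`,
`N ≤ x < 2 N`, with second differences at most `N ^ (-δ)` are two bases of a solution with third base
at most `exp (N ^ κ)`. -/
theorem result (δ : ℝ) (hδ : 0 < δ) : ∃ κ : ℝ, 0 < κ ∧ ∃ N₀ : ℕ, ∀ N : ℕ, N₀ ≤ N → ∀ g : ℤ → ℝ,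
    (∀ n : ℤ, N ≤ n → n + 2 ≤ 2 * N → |g (n + 2) - 2 * g (n + 1) + g n| ≤ (N : ℝ) ^ (-δ)) →
    (∀ n : ℤ, N ≤ n → n ≤ 2 * N → |g n| ≤ Real.exp ((N : ℝ) ^ κ)) →
      {v : ℤ × ℤ | N ≤ v.1 ∧ v.1 < 2 * N ∧ |(v.2 : ℝ) - g v.1| ≤ (N : ℝ) ^ κ ∧
        TwoBases (Real.exp ((N : ℝ) ^ κ)) v.1 v.2}.Finite ∧
      ({v : ℤ × ℤ | N ≤ v.1 ∧ v.1 < 2 * N ∧ |(v.2 : ℝ) - g v.1| ≤ (N : ℝ) ^ κ ∧
        TwoBases (Real.exp ((N : ℝ) ^ κ)) v.1 v.2}.ncard : ℝ) ≤ (N : ℝ) ^ (1 - κ) := by
  classical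
  obtain ⟨κ, hκ, N₀, h⟩ := Pool.Agent.L5helper15.NL.curve δ hδ
  refine ⟨κ, hκ, N₀, fun N hN g h1 h2 => ?_⟩
  have hfin : {v : ℤ × ℤ | N ≤ v.1 ∧ v.1 < 2 * N ∧ |(v.2 : ℝ) - g v.1| ≤ (N : ℝ) ^ κ ∧
      TwoBases (Real.exp ((N : ℝ) ^ κ)) v.1 v.2}.Finite := by
    set K : ℤ := ⌈Real.exp ((N : ℝ) ^ κ) + (N : ℝ) ^ κ⌉ with hK
    refine ((Set.finite_Icc (N : ℤ) (2 * N)).prod (Set.finite_Icc (-K) K)).subset ?_
    rintro ⟨x, y⟩ ⟨h3, h4, h5, -⟩
    simp only at h3 h4 h5
    have h6 := h2 x h3 h4.le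
    have h7 : |(y : ℝ)| ≤ K := by
      have h8 := Int.le_ceil (Real.exp ((N : ℝ) ^ κ) + (N : ℝ) ^ κ)
      have h9 : |(y : ℝ)| ≤ |(y : ℝ) - g x| + |g x| := by
        have := abs_add_le ((y : ℝ) - g x) (g x)
        rwa [sub_add_cancel] at this
      linarith
    rw [Set.mem_prod, Set.mem_Icc, Set.mem_Icc]
    refine ⟨⟨h3, h4.le⟩, ?_⟩
    obtain ⟨h8, h9⟩ := abs_le.mp h7
    exact ⟨by exact_mod_cast h8, by exact_mod_cast h9⟩
  refine ⟨hfin, ?_⟩
  rw [Set.ncard_eq_toFinset_card _ hfin]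
  apply h N hN g h1 h2
  intro v hv
  rw [Set.Finite.mem_toFinset] at hv
  exact ⟨hv.1, hv.2.1, hv.2.2.1, hv.2.2.2.pair⟩

end Pool.Agent.Results.MP_2738db_nt.NearSmoothCurves
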