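import Mathlib
import Pool.Agent.L5helper35.FC.Final

/-!
# The Fermat-Catalan equation with bases within one of powers of one integer

There is `κ` such that only finitely many value triples `(x ^ p, y ^ q, z ^ r)` come from solutions of
`x ^ p + y ^ q = z ^ r` in pairwise coprime positive integers, `1 / p + 1 / q + 1 / r < 1`, with the
following property: for some integer `w ≥ 2` and some `a, b, c ≥ 1` the bases `x`, `y`, `z` are at distance
at most `max 1 (w / (log N) ^ κ)` from `w ^ a`, `w ^ b`, `w ^ c`, where `N = max (x, y, z)`. All of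
`w, a, b, c, p, q, r` are free. In particular (`w = 2`) only finitely many value triples come from solutions
all of whose bases are of the forms `2 ^ k`, `2 ^ k + 1`, `2 ^ k - 1`.

Proof. For `w ≥ (log N) ^ κ` this is the theorem `near_all` of the starting library. For
`w < (log N) ^ κ` all distances are at most one, `w` is even and exactly one base is a power of `w`, so
that `(w ^ i ± 1) ^ m ± (w ^ j ± 1) ^ n = ± w ^ s`, `i ≤ j`. Linear forms in two `2`-adic logarithms bound
`m, n` by a power of `log (w ^ j)` (starting library). If `s ≥ j`, then the order of `1 ± w ^ i` modulo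
`w ^ j` is at most `m`, hence `j - i` is at most about `log m`; then all sizes are known so precisely that
comparison of integers of size `O(m)` gives a contradiction. If `s < j`, then `i m = j n` and comparison
gives a contradiction when `w ^ i` exceeds a power of `m + n`; otherwise
`m log (w ^ i ± 1) - n j log w` is too small for the lower bound of a linear form in two logarithms.
-/

set_option autoImplicit false

namespace Pool.Agent.Results.MP_2738db_nt.UnitNeighboursOfPowers

/-- There are finitely many solutions, counted by their value triples, whose three bases are within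
`max 1 (w / (log N) ^ κ)` of powers of one integer `w ≥ 2`. -/
theorem result : ∃ κ : ℕ, {v : ℕ × ℕ × ℕ | ∃ x y z p q r w a b c : ℕ, 0 < x ∧ 0 < y ∧ 0 < z ∧
    Nat.Coprime x y ∧ Nat.Coprime x z ∧ Nat.Coprime y z ∧ 0 < p ∧ 0 < q ∧ 0 < r ∧
    (1 : ℚ) / p + 1 / q + 1 / r < 1 ∧ x ^ p + y ^ q = z ^ r ∧ v = (x ^ p, y ^ q, z ^ r) ∧
    2 ≤ w ∧ 1 ≤ a ∧ 1 ≤ b ∧ 1 ≤ c ∧
    |(x : ℝ) - (w : ℝ) ^ a| ≤ max 1 (w / Real.log (max x (max y z) : ℕ) ^ κ) ∧
    |(y : ℝ) - (w : ℝ) ^ b| ≤ max 1 (w / Real.log (max x (max y z) : ℕ) ^ κ) ∧
    |(z : ℝ) - (w : ℝ) ^ c| ≤ max 1 (w / Real.log (max x (max y z) : ℕ) ^ κ)}.Finite :=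
  Pool.Agent.L5helper35.FC.near_unit

end Pool.Agent.Results.MP_2738db_nt.UnitNeighboursOfPowers
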